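import Pool.Agent.Q17.FT.Stm2
import Pool.Agent.Q17.AM.Mgd
import Pool.Agent.Q17.AM.Fin2
import Pool.Agent.Q184.FT.FTK
import Pool.Agent.Q150.FT.GCP
import Pool.Agent.Q92.FT.CRT
import Pool.Agent.Q38.FT.PVC
import Pool.Agent.Q18.CF.Lin

/-!
# The Alperin-McKay conjecture and the characters with values in the `p`-power cyclotomic fields
-/

set_option autoImplicit false

open scoped Classical

noncomputable section

namespace Pool.Agent.Q17.FT

open Pool.Agent.H254R3.IN hiding NN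
open Pool.Agent.Q17.WR Pool.Agent.Q17.AM Pool.Agent.Q17.RB
open Pool.Agent.Q17.DC
open Pool.Agent.Q111.OS
open Pool.Agent.Q66.RB

theorem p_ftk : S_FTK := Pool.Agent.Q184.FT.t_FTK p_fxi p_fxb p_tra p_fxc p_gcb p_ht p_fmt

/-- the automorphisms which fix the `p ^ j`-th roots of unity -/
def Kj (p j : ℕ) : Set (ℂ ≃+* ℂ) := {s | ∀ ζ : ℂ, ζ ^ (p ^ j) = 1 → s ζ = ζ}

lemma cyc_iff {G : Type} [Group G] [Fintype G] {χ : G → ℂ} (hχ : IsIrr χ) {p J : ℕ}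
    [hp : Fact p.Prime] (hJ : (Nat.card G).factorization p ≤ J) :
    Cyc p χ ↔ ∀ s ∈ Kj p J, ∀ g, s (χ g) = χ g := by
  refine ⟨fun h s hs g => ?_, fun h => ⟨J, fun s hs g => h s hs g⟩⟩
  obtain ⟨j, hj⟩ := h
  have hn : 0 < Nat.card G := Nat.card_pos
  obtain ⟨t, ht1, ht2⟩ := Pool.Agent.Q92.FT.t_CRT (Nat.card G) (p ^ j) hn
    (pow_pos hp.out.pos j) s (fun ζ hζ => hs ζ (by
      obtain ⟨i, _, hi⟩ := (Nat.dvd_prime_pow hp.out).mp (Nat.gcd_dvd_right (Nat.card G) (p ^ j))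
      have h1 : p ^ i ∣ Nat.card G := hi ▸ Nat.gcd_dvd_left (Nat.card G) (p ^ j)
      have h2 := (hp.out.pow_dvd_iff_le_factorization hn.ne').mp h1
      obtain ⟨c, hc⟩ := pow_dvd_pow p (h2.trans hJ)
      rw [hi] at hζ
      rw [hc, pow_mul, hζ, one_pow]))
  have h3 := p_gv.1 G χ hχ s t (fun ζ hζ => (ht1 ζ hζ).symm) g
  rw [h3, hj t ht2 g]

/-- a linear character of the cyclic group of order `v` onto the `v`-th roots of unity -/
lemma exists_lin (v : ℕ) (hv : 0 < v) : ∃ ψ : Multiplicative (ZMod v) →* ℂˣ,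
    ∀ ζ : ℂ, ζ ^ v = 1 → ∃ x, ((ψ x : ℂˣ) : ℂ) = ζ := by
  have hN : NeZero v := ⟨hv.ne'⟩
  have h1 := Complex.isPrimitiveRoot_exp v hv.ne'
  obtain ⟨u, hu⟩ := h1.isUnit hv.ne'
  have h2 : IsPrimitiveRoot u v := IsPrimitiveRoot.coe_units_iff.mp (by rw [hu]; exact h1)
  refine ⟨⟨⟨fun x => ((h2.zmodEquivZPowers x.toAdd).toMul : Subgroup.zpowers u), ?_⟩, ?_⟩, ?_⟩
  · simp
  · intro x y
    simp
  · intro ζ hζ
    obtain ⟨i, _, hi⟩ := h1.eq_pow_of_pow_eq_one hζ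
    refine ⟨Multiplicative.ofAdd (i : ZMod v), ?_⟩
    change (((h2.zmodEquivZPowers (i : ZMod v)).toMul : Subgroup.zpowers u) : ℂˣ).val = ζ
    rw [h2.zmodEquivZPowers_apply_coe_nat]
    change ((u ^ i : ℂˣ) : ℂ) = ζ
    rw [Units.val_pow_eq_pow_val, hu, hi]

/-- an automorphism which fixes the `a`-th and the `b`-th roots of unity, `a` and `b` coprime, fixes the
`a * b`-th roots of unity -/
lemma fix_mul {a b : ℕ} (hab : Nat.Coprime a b) {s : ℂ ≃+* ℂ} (ha : ∀ ζ : ℂ, ζ ^ a = 1 → s ζ = ζ)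
    (hb : ∀ ζ : ℂ, ζ ^ b = 1 → s ζ = ζ) (h0 : 0 < a * b) {ζ : ℂ} (hζ : ζ ^ (a * b) = 1) :
    s ζ = ζ := by
  obtain ⟨x, y, hxy⟩ := Nat.isCoprime_iff_coprime.mpr hab
  have hne : ζ ≠ 0 := by
    rintro rfl
    rw [zero_pow h0.ne'] at hζ
    exact zero_ne_one hζ
  have h1 : s (ζ ^ a) = ζ ^ a := hb _ (by rw [← pow_mul]; exact hζ)
  have h2 : s (ζ ^ b) = ζ ^ b := ha _ (by rw [← pow_mul, mul_comm]; exact hζ)
  have h3 : ζ = (ζ ^ a) ^ x * (ζ ^ b) ^ y := by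
    rw [← zpow_natCast, ← zpow_natCast, ← zpow_mul, ← zpow_mul, ← zpow_add₀ hne,
      show (a : ℤ) * x + (b : ℤ) * y = 1 by rw [← hxy]; ring, zpow_one]
  rw [h3, map_mul, map_zpow₀, map_zpow₀, h1, h2]

lemma fact_le {G : Type} [Group G] [Fintype G] (H : Subgroup G) (p : ℕ) :
    (Nat.card H).factorization p ≤ (Nat.card G).factorization p :=
  (Nat.factorization_le_iff_dvd Nat.card_pos.ne' Nat.card_pos.ne').mpr
    (Subgroup.card_subgroup_dvd_card H) p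

/-- The characters of height zero in `B` and in the Brauer correspondent are counted by characters
of Galois-stable blocks with values in the `p`-power cyclotomic fields. -/
theorem ft_count {p : ℕ} [hp : Fact p.Prime] {O : ValuationSubring ℂ} (hO : (p : ℂ) ∈ O.nonunits)
    {G : Type} [Group G] [Fintype G] {B : Set (G → ℂ)} {D : Subgroup G} {b : Set (NN D → ℂ)}
    (hd : Dt p O B D b) : ∃ (v : ℕ) (_ : NeZero v), ¬ p ∣ v ∧ ∃ (A : Type) (_ : CommGroup A)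
      (_ : Fintype A) (B' : Set (Wr (G × Multiplicative (ZMod v)) A A → ℂ))
      (b' : Set (NN (Da A (D.prod (⊥ : Subgroup (Multiplicative (ZMod v))))) → ℂ)),
      Dt p O B' (Da A (D.prod ⊥)) b' ∧ Gst B' ∧ Gst b' ∧
      ({χ | χ ∈ Irr0 p (Da A (D.prod (⊥ : Subgroup (Multiplicative (ZMod v))))) B' ∧
        Cyc p χ} : Set _).ncard = (Irr0 p D B).ncard ∧
      ({χ | χ ∈ Irr0 p ((Da A (D.prod (⊥ : Subgroup (Multiplicative (ZMod v))))).subgroupOf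
        (NN (Da A (D.prod (⊥ : Subgroup (Multiplicative (ZMod v))))))) b' ∧
        Cyc p χ} : Set _).ncard = (Irr0 p (D.subgroupOf (NN D)) b).ncard := by
  have hn : 0 < Nat.card G := Nat.card_pos
  obtain ⟨v, hv⟩ : ∃ v, v = Nat.card G / p ^ (Nat.card G).factorization p := ⟨_, rfl⟩
  obtain ⟨a, ha⟩ : ∃ a, a = (Nat.card G).factorization p := ⟨_, rfl⟩
  have hcard : Nat.card G = v * p ^ a := by
    rw [hv, ha, mul_comm]
    exact (Nat.ordProj_mul_ordCompl_eq_self _ _).symm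
  have hv0 : 0 < v := Nat.pos_of_ne_zero fun h => by rw [h, zero_mul] at hcard; omega
  have hpv : ¬ p ∣ v := by
    rw [hv]
    exact Nat.not_dvd_ordCompl hp.out hn.ne'
  have hN : NeZero v := ⟨hv0.ne'⟩
  have hVc : Nat.card (Multiplicative (ZMod v)) = v := by
    rw [Nat.card_congr (Multiplicative.toAdd : Multiplicative (ZMod v) ≃ ZMod v), Nat.card_zmod]
  have hpV : ¬ p ∣ Nat.card (Multiplicative (ZMod v)) := by rw [hVc]; exact hpv
  obtain ⟨ψ, hψ⟩ := exists_lin v hv0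
  have hψv : ∀ x, ((ψ x : ℂˣ) : ℂ) ^ v = 1 := by
    intro x
    have h1 : x ^ v = 1 := by
      have h2 := pow_card_eq_one' (x := x)
      rwa [hVc] at h2
    rw [← Units.val_pow_eq_pow_val, ← map_pow, h1, map_one, Units.val_one]
  have hψi := Pool.Agent.Q18.CF.lin_irr ψ
  obtain ⟨b₁, hd₁, hst₁, hc₁⟩ := Pool.Agent.Q38.FT.t_PVC G (Multiplicative (ZMod v)) p O hO hpV
    (fun x => ((ψ x : ℂˣ) : ℂ)) hψi B D b hd
  obtain ⟨A, _, _, β, b', -, hdt, hg, hgb, hcount⟩ := p_ftk (G × Multiplicative (ZMod v)) p O hO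
    _ _ _ hd₁
  refine ⟨v, hN, hpv, A, inferInstance, inferInstance, FX β, b', hdt, hg, hgb, ?_⟩
  have hfin : Finite (Wr (G × Multiplicative (ZMod v)) A A) :=
    Finite.of_equiv _ SemidirectProduct.equivProd.symm
  have : Fintype (Wr (G × Multiplicative (ZMod v)) A A) := Fintype.ofFinite _
  have : Fintype (Pool.Agent.Q17.AM.NN
    (Da A (D.prod (⊥ : Subgroup (Multiplicative (ZMod v)))))) := Fintype.ofFinite _
  have : Fintype (Pool.Agent.Q17.AM.NN D) := Fintype.ofFinite _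
  obtain ⟨J, hJ1, hJ2⟩ : ∃ J, (Nat.card (Wr (G × Multiplicative (ZMod v)) A A)).factorization p ≤ J ∧
    a ≤ J := ⟨max _ a, le_max_left _ _, le_max_right _ _⟩
  -- the set of automorphisms
  have h1 := hcount (Kj p J) (fun ζ _ => rfl) (fun s hs t ht ζ hζ => by
      change s (t ζ) = ζ
      rw [ht ζ hζ, hs ζ hζ]) (fun s hs ζ hζ => by
      change s.symm ζ = ζ
      rw [RingEquiv.symm_apply_eq, hs ζ hζ]) (fun s => by
      obtain ⟨t, ht1, ht2⟩ := Pool.Agent.Q92.FT.t_CRT v (p ^ J) hv0 (pow_pos hp.out.pos J) s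
        (fun ζ hζ => by
          have h2 : Nat.gcd v (p ^ J) = 1 :=
            Nat.Coprime.pow_right J ((Nat.Prime.coprime_iff_not_dvd hp.out).mpr hpv).symm
          rw [h2, pow_one] at hζ
          rw [hζ, map_one])
      have h3 : ∀ ζ : ℂ, ζ ^ v = 1 → (s⁻¹ * t) ζ = ζ := by
        intro ζ hζ
        change s.symm (t ζ) = ζ
        rw [ht1 ζ hζ, RingEquiv.symm_apply_apply]
      refine ⟨t, ht2, (hst₁ _).mpr ⟨?_, fun x => h3 _ (hψv x)⟩⟩
      exact Pool.Agent.Q150.FT.t_GCP G p O hO B hd.1 _ (fun ζ hζ => h3 ζ (by rw [hv]; exact hζ)))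
  have hK : ∀ s ∈ ({s | s ∈ Kj p J ∧ St s (TB B {fun x => ((ψ x : ℂˣ) : ℂ)})} :
      Set (ℂ ≃+* ℂ)), (∀ x, s ((ψ x : ℂˣ) : ℂ) = ((ψ x : ℂˣ) : ℂ)) ∧
      ∀ ζ : ℂ, ζ ^ Nat.card G = 1 → s ζ = ζ := by
    rintro s ⟨hs1, hs2⟩
    have h2 := ((hst₁ s).mp hs2).2
    refine ⟨h2, fun ζ hζ => ?_⟩
    rw [hcard] at hζ
    refine fix_mul (Nat.Coprime.pow_right a
      ((Nat.Prime.coprime_iff_not_dvd hp.out).mpr hpv).symm) ?_ ?_
      (Nat.mul_pos hv0 (pow_pos hp.out.pos a)) hζ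
    · intro ζ hζ
      obtain ⟨x, hx⟩ := hψ ζ hζ
      rw [← hx]
      exact h2 x
    · intro ζ hζ
      refine hs1 ζ ?_
      obtain ⟨c, hc⟩ := pow_dvd_pow p hJ2
      rw [hc, pow_mul, hζ, one_pow]
  have h2 := hc₁ _ fun s hs => (hK s hs).1
  have h3 : FxS (Irr0 p D B) {s | s ∈ Kj p J ∧ St s (TB B {fun x => ((ψ x : ℂˣ) : ℂ)})} =
      Irr0 p D B := by
    ext χ
    refine ⟨fun h => h.1, fun h => ⟨h, fun s hs g => ?_⟩⟩
    exact p_gv.1 G χ (hd.1.irr χ h.1) s 1 (fun ζ hζ => (hK s hs).2 ζ hζ) g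
  have h4 : FxS (Irr0 p (D.subgroupOf (NN D)) b)
      {s | s ∈ Kj p J ∧ St s (TB B {fun x => ((ψ x : ℂˣ) : ℂ)})} =
      Irr0 p (D.subgroupOf (NN D)) b := by
    ext χ
    refine ⟨fun h => h.1, fun h => ⟨h, fun s hs g => ?_⟩⟩
    refine p_gv.1 (NN D) χ (hd.2.2.1.irr χ h.1) s 1 (fun ζ hζ => (hK s hs).2 ζ ?_) g
    obtain ⟨c, hc⟩ := Subgroup.card_subgroup_dvd_card (NN D)
    rw [hc, pow_mul, hζ, one_pow]
  rw [h3, h4] at h2
  rw [h2.1, h2.2] at h1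
  refine ⟨?_, ?_⟩
  · rw [← h1.1]
    congr 1
    ext χ
    exact and_congr_right fun h => cyc_iff (hdt.1.irr χ h.1) hJ1
  · rw [← h1.2]
    congr 1
    ext χ
    exact and_congr_right fun h => cyc_iff (hdt.2.2.1.irr χ h.1) ((fact_le _ p).trans hJ1)

end Pool.Agent.Q17.FT
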