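import Pool.Agent.Q17.FT.Stm

/-!
# Statements of project FT, part 3 (direct products of blocks with their Brauer correspondents)
-/

set_option autoImplicit false

open scoped Classical

noncomputable section

namespace Pool.Agent.Q17.FT

open Pool.Agent.H254R3.IN hiding NN
open Pool.Agent.Q17.WR
open Pool.Agent.Q17.DC
open Pool.Agent.Q17.AM
open Pool.Agent.Q17.RB
open Pool.Agent.Q111.OS

/-- JOB DTP (`t_DTP : S_HT → S_DTP`). Direct products of blocks with defect groups and Brauer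
correspondents. Proof. This is `t_PVC` in `Q38.FT.PVC` (one factor there is `{ψ}`); copy its proof.
`TB B₁ B₂` is a block with the defect group `D₁.prod D₂` (`block_TB`, `defect_TB` in `Q111.OS.PBK`).
`NN (D₁.prod D₂)` is the subgroup `(NN D₁).prod (NN D₂)`, isomorphic to `NN D₁ × NN D₂`; let `b` be the
transport (`CB`, `block_CB`, `defect_CB`) of `TB b₁ b₂`. It is a Brauer correspondent:
`omega (tp χ₁ χ₂) (x₁, x₂) = omega χ₁ x₁ * omega χ₂ x₂` (`omega_tp`), and the sum over the `y` in the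
normaliser conjugate to `(x₁, x₂)` of `tp θ₁ θ₂ y / tp θ₁ θ₂ 1` is the product of the two sums; the
factors are congruent and in `O` (values of `omega` are in `O`). Stabilisers:
`s ∘ tp χ₁ χ₂ = tp (s ∘ χ₁) (s ∘ χ₂)`; use `s` and `s⁻¹`. Numbers: `tp χ₁ χ₂` is fixed by `s` if and only
if `χ₁` and `χ₂` are (evaluate at `(g, 1)` and `(1, h)`, the degrees are positive integers). Its degree is
the product of the degrees, and the index of `D₁.prod D₂` is the product of the indices; by `S_HT` for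
`B₁` and for `B₂` the character has height zero if and only if both have. So
`FxS (Irr0 p (D₁.prod D₂) (TB B₁ B₂)) K = TB (FxS (Irr0 p D₁ B₁) K) (FxS (Irr0 p D₂ B₂) K)`, and
`(χ₁, χ₂) ↦ tp χ₁ χ₂` is injective on irreducible characters (`tp_inj`). For `b` the same for
`NN D₁ × NN D₂`, and transport along the isomorphism as in `t_PVC`. -/
def S_DTP : Prop := ∀ (G₁ G₂ : Type) [Group G₁] [Fintype G₁] [Group G₂] [Fintype G₂] (p : ℕ)
  [Fact p.Prime] (O : ValuationSubring ℂ), (p : ℂ) ∈ O.nonunits → ∀ (B₁ : Set (G₁ → ℂ))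
  (D₁ : Subgroup G₁) (b₁ : Set (NN D₁ → ℂ)) (B₂ : Set (G₂ → ℂ)) (D₂ : Subgroup G₂)
  (b₂ : Set (NN D₂ → ℂ)), Dt p O B₁ D₁ b₁ → Dt p O B₂ D₂ b₂ →
  ∃ b : Set (NN (D₁.prod D₂) → ℂ), Dt p O (TB B₁ B₂) (D₁.prod D₂) b ∧
  (∀ s : ℂ ≃+* ℂ, St s B₁ → St s B₂ → St s (TB B₁ B₂)) ∧
  ∀ K : Set (ℂ ≃+* ℂ),
  (FxS (Irr0 p (D₁.prod D₂) (TB B₁ B₂)) K).ncard =
    (FxS (Irr0 p D₁ B₁) K).ncard * (FxS (Irr0 p D₂ B₂) K).ncard ∧
  (FxS (Irr0 p ((D₁.prod D₂).subgroupOf (NN (D₁.prod D₂))) b) K).ncard =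
    (FxS (Irr0 p (D₁.subgroupOf (NN D₁)) b₁) K).ncard *
      (FxS (Irr0 p (D₂.subgroupOf (NN D₂)) b₂) K).ncard

/-- JOB DCP. The block of the group of order `p`. Proof. All irreducible characters of the abelian group
`Cy p` are linear, their values are `p`-th roots of unity, and there are `p` of them (for example by the
sum of the squares of the degrees, or `lin_irr` in `Q18.CF.Lin`; search for linear characters of abelian
groups in the pool). `omega χ x = χ x`, and `χ x - 1 ∈ O.nonunits` as `χ x` is a `p`-th root of unity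
(this is in the pool; otherwise: its residue is a `p`-th root of unity in a field of characteristic
`p`). So all irreducible characters are in one block; `⊤` is a defect group: take `x = 1`,
`omega χ 1 = 1`, `blockCoeff B 1 = p⁻¹ * ∑ χ, 1 = 1`, the centraliser of `1` is everything and a
`p`-group. `NN ⊤` is `⊤`; `b` is the set of the `χ ∘ e`, `e : NN ⊤ ≃* Cy p` the inclusion. All degrees and
the index of `⊤` are `1`. -/
def S_DCP : Prop := ∀ (p : ℕ) [Fact p.Prime] (O : ValuationSubring ℂ), (p : ℂ) ∈ O.nonunits →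
  ∃ b : Set (NN (⊤ : Subgroup (Cy p)) → ℂ), Dt p O {χ : Cy p → ℂ | IsIrr χ} ⊤ b ∧
  (∀ s : ℂ ≃+* ℂ, St s {χ : Cy p → ℂ | IsIrr χ}) ∧
  ∀ K : Set (ℂ ≃+* ℂ), (∀ s ∈ K, ∀ ζ : ℂ, ζ ^ p = 1 → s ζ = ζ) →
  (FxS (Irr0 p ⊤ {χ : Cy p → ℂ | IsIrr χ}) K).ncard = p ∧
  (FxS (Irr0 p ((⊤ : Subgroup (Cy p)).subgroupOf (NN (⊤ : Subgroup (Cy p)))) b) K).ncard = p

end Pool.Agent.Q17.FT
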