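import Pool.Agent.Q17.RB.Stm2
import Pool.Agent.Q111.OS.PBK

/-!
# Statements of project FT (characters with values in the `p`-power cyclotomic fields)

`TB B₁ B₂` are the products `tp χ ψ` of members of `B₁` and `B₂` (`Q111.OS.PBK`: `block_TB`, `defect_TB`,
`exists_tp`, `tp_inj`, `omega_tp`, `irr_tp`, transport of blocks with `CB`); `FX β`, `Da A D`, `gc`, `Gst`,
`FxS` are in `Q17.RB.Stm`, `Q17.RB.Stm2`; `Dt`, `Irr0`, `St`, `Fxd` in `Q17.AM.Stm4`.
-/

set_option autoImplicit false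

open scoped Classical

noncomputable section

namespace Pool.Agent.Q17.FT

open Pool.Agent.H254R3.IN hiding NN
open Pool.Agent.Q17.WR
open Pool.Agent.Q17.DC
open Pool.Agent.Q17.AM
open Pool.Agent.Q17.RB
open Pool.Agent.Q111.OS

/-- JOB FTK (`t_FTK : S_FXI → S_FXB → S_TRA → S_FXC → S_GCB → S_HT → S_FMT → S_FTK`). The statement `S_RTK`
with a group `K` of automorphisms which moves `B` to all its Galois conjugates. Proof: copy the proof of
`t_RTK` in `Q275.RB.RTK` (or `t_RAT` in `Q66.RB.Rat`); only the last part changes. There `n = |G|`,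
`π : (ZMod n)ˣ → A` is surjective with kernel the stabiliser of `B`, `β (π u) = gu u B`, `c (π u) = gu u b`.
For `s ∈ K` let `u` be a unit with `s ζ = ζ ^ u` for the `n`-th roots of unity and `a_s = π u`; so
`s ∘ θ = θ ∘ (· ^ u)` for `θ ∈ β ω` and for `θ ∈ c ω`, and `s` maps `β ω` onto `β (a_s * ω)`. Let `nca f`,
`f ω ∈ β ω`, be fixed by all `s ∈ K`. `s ∘ nca f = nca (s ∘ f) = nca h`, `h ω = s ∘ f (a_s⁻¹ * ω) ∈ β ω`, so
`h = f` by `S_FXI`: (1) `f (a_s * ω) = s ∘ f ω` for all `s ∈ K`, `ω`. Every `a : A` is `a_s` for some `s ∈ K`: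
`a = π u`, let `s₀` be an automorphism with `s₀ ζ = ζ ^ u` (as in `S_GCB`), `t ∈ K` with
`St (s₀⁻¹ * t) B`, then `a_t = a`. So `f` is determined by `χ = f 1`, a member of `B` of height zero which
is fixed by the `s ∈ K` with `St s B` (then `a_s = 1`). Conversely for such a `χ` choose `t ω ∈ K` with
`a_(t ω) = ω` and put `f ω = t ω ∘ χ`; (1) holds, since `(t (a_s * ω))⁻¹ * s * t ω ∈ K` stabilises `B`, so
`nca f` is fixed by all `s ∈ K`. Heights: `Irr0 p (Da A D) (FX β) = FX (fun ω => Irr0 p D (β ω))`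
(`FxS_FX` in `Q275.RB.RTK` for `K` empty, or `Fxd_FX`), and `t ω ∘ χ` has the degree of `χ`. The same for
`c`; `St s B` implies `St s b` and conversely (`S_FMT`: `c (π u)` is the correspondent of `β (π u)`). -/
def S_FTK : Prop := ∀ (G : Type) [Group G] [Fintype G] (p : ℕ) [Fact p.Prime]
  (O : ValuationSubring ℂ), (p : ℂ) ∈ O.nonunits → ∀ (B : Set (G → ℂ)) (D : Subgroup G)
  (b : Set (NN D → ℂ)), Dt p O B D b → ∃ (A : Type) (_ : CommGroup A) (_ : Fintype A)
  (β : A → Set (G → ℂ)) (b' : Set (NN (Da A D) → ℂ)), β 1 = B ∧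
  Dt p O (FX β) (Da A D) b' ∧ Gst (FX β) ∧ Gst b' ∧
  ∀ K : Set (ℂ ≃+* ℂ), (1 : ℂ ≃+* ℂ) ∈ K → (∀ s ∈ K, ∀ t ∈ K, s * t ∈ K) →
  (∀ s ∈ K, s⁻¹ ∈ K) → (∀ s : ℂ ≃+* ℂ, ∃ t ∈ K, St (s⁻¹ * t) B) →
  (FxS (Irr0 p (Da A D) (FX β)) K).ncard = (FxS (Irr0 p D B) {s | s ∈ K ∧ St s B}).ncard ∧
  (FxS (Irr0 p ((Da A D).subgroupOf (NN (Da A D))) b') K).ncard =
    (FxS (Irr0 p (D.subgroupOf (NN D)) b) {s | s ∈ K ∧ St s B}).ncard

/-- JOB GCP. An automorphism which is trivial on the `n'`-th roots of unity, `n'` the `p'`-part of `|G|`,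
stabilises every `p`-block. Proof. Let `n = |G|`, `s ζ = ζ ^ k` for the `n`-th roots of unity, so
`s (χ g) = χ (g ^ k)` for characters (`exp_of` in `Q17.TP.Fin`, or `S_GCB` (4), proved in `Q261.RB.GCB`),
and `g ^ k = g` for `p`-regular `g` (its order divides `n'`, and `k ≡ 1` modulo `n'`). `blockCoeff B`
vanishes on the elements of order divisible by `p` (this is in the pool: `Y63` or `Q17.DC`, `S_SECT`,
search for it), so `s (blockCoeff B g) = blockCoeff B (g ^ k) = blockCoeff B g` for all `g`. So for `χ ∈ B`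
`Om (blockCoeff B) (s ∘ χ) = s (Om (blockCoeff B) χ) = 1`, hence `s ∘ χ ∈ B` (`Om_blockCoeff`: it would be
`0` otherwise). The same for `s⁻¹`. -/
def S_GCP : Prop := ∀ (G : Type) [Group G] [Fintype G] (p : ℕ) [Fact p.Prime]
  (O : ValuationSubring ℂ), (p : ℂ) ∈ O.nonunits → ∀ B : Set (G → ℂ), IsBlock O B →
  ∀ s : ℂ ≃+* ℂ, (∀ ζ : ℂ, ζ ^ (Nat.card G / p ^ (Nat.card G).factorization p) = 1 → s ζ = ζ) →
  St s B

/-- JOB CRT. Automorphisms with given values on roots of unity. Proof. Let `L` be the least common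
multiple of `n` and `m`, and `s ζ = ζ ^ k` for the `L`-th roots of unity (`k` prime to `L`; see
`exists_unit` in `Q66.RB.RatA`). `k ≡ 1` modulo `gcd n m`. By the Chinese remainder theorem there is `k'`
with `k' ≡ k` modulo `n` and `k' ≡ 1` modulo `m`; it is prime to `L`. There is an automorphism `t` of `ℂ`
with `t ζ = ζ ^ k'` for the `L`-th roots of unity (`IsCyclotomicExtension.autEquivPow`, extended to `ℂ`;
search the pool, this is used in `Q261.RB.GCB` or in `Q66.RB`). -/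
def S_CRT : Prop := ∀ n m : ℕ, 0 < n → 0 < m → ∀ s : ℂ ≃+* ℂ,
  (∀ ζ : ℂ, ζ ^ Nat.gcd n m = 1 → s ζ = ζ) →
  ∃ t : ℂ ≃+* ℂ, (∀ ζ : ℂ, ζ ^ n = 1 → t ζ = s ζ) ∧ ∀ ζ : ℂ, ζ ^ m = 1 → t ζ = ζ

/-- JOB PVC. Products with an irreducible character of a group `V` of order prime to `p`. Proof. `{ψ}` is
a block of `V`: if `ψ'` is irreducible and `omega ψ' ≡ omega ψ`, then `ψ' = ψ` (`red_Om` with the class
function `E g = (ψ 1 / |V|) ψ g⁻¹`, which has values in `O` as `|V|` is a unit of `O`); its defect group is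
`⊥` (`IsDefectGroup p O {ψ} ⊥`: there is a class with `blockCoeff` and `omega` not in `O.nonunits`, and
`p`-subgroups of `V` are trivial). So `TB B {ψ}` is a block with the defect group `D.prod ⊥` (`block_TB`,
`defect_TB`). `NN (D.prod ⊥)` is the subgroup `(NN D).prod ⊤` (`D.prod ⊥` is normalised by `(g, v)` if and
only if `g` normalises `D`), isomorphic to `NN D × V`; let `b₁` be the transport (`CB`, `block_CB`,
`defect_CB`) of `TB b {ψ}`. It is a Brauer correspondent: `omega (tp χ ψ) (x, v) = omega χ x * omega ψ v`,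
and the sum over the `y` in the normaliser conjugate to `(x, v)` of `θ y * ψ v / (θ 1 * ψ 1)` is the
product of the sum for `θ` and `omega ψ v`; these are congruent as the values of `omega ψ` are in `O`.
Stabilisers: `s ∘ tp χ ψ = tp (s ∘ χ) (s ∘ ψ)` and `tp_inj`. Numbers: `χ ↦ tp χ ψ` is injective, the degree is
multiplied by `ψ 1`, which is prime to `p` (it divides `|V|`), and the index of `D.prod ⊥` is
`|G : D| |V|`; for `b₁` transport along the isomorphism as at the end of `t_RTK` in `Q275.RB.RTK`. -/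
def S_PVC : Prop := ∀ (G V : Type) [Group G] [Fintype G] [Group V] [Fintype V] (p : ℕ)
  [Fact p.Prime] (O : ValuationSubring ℂ), (p : ℂ) ∈ O.nonunits → ¬ p ∣ Nat.card V →
  ∀ ψ : V → ℂ, IsIrr ψ → ∀ (B : Set (G → ℂ)) (D : Subgroup G) (b : Set (NN D → ℂ)),
  Dt p O B D b → ∃ b₁ : Set (NN (D.prod (⊥ : Subgroup V)) → ℂ),
  Dt p O (TB B {ψ}) (D.prod ⊥) b₁ ∧
  (∀ s : ℂ ≃+* ℂ, St s (TB B {ψ}) ↔ St s B ∧ ∀ v, s (ψ v) = ψ v) ∧
  ∀ K : Set (ℂ ≃+* ℂ), (∀ s ∈ K, ∀ v, s (ψ v) = ψ v) →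
  (FxS (Irr0 p (D.prod (⊥ : Subgroup V)) (TB B {ψ})) K).ncard = (FxS (Irr0 p D B) K).ncard ∧
  (FxS (Irr0 p ((D.prod (⊥ : Subgroup V)).subgroupOf (NN (D.prod (⊥ : Subgroup V)))) b₁)
    K).ncard = (FxS (Irr0 p (D.subgroupOf (NN D)) b) K).ncard

end Pool.Agent.Q17.FT
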