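import Pool.Agent.Q17.AM.Fin
import Pool.Agent.H977R3.CM.TowerCount

/-!
# Fields of values of characters and automorphisms of the complex numbers
-/

set_option autoImplicit false

open scoped Classical

noncomputable section

namespace Pool.Agent.Q17.FT

open Pool.Agent.H254R3.IN hiding NN
open Pool.Agent.Q17.AM

/-- the automorphisms which fix the `p ^ j`-th roots of unity fix the values of `χ`, for some `j` -/
def Cyc (p : ℕ) {G : Type} (χ : G → ℂ) : Prop :=
  ∃ j : ℕ, ∀ s : ℂ ≃+* ℂ, (∀ ζ : ℂ, ζ ^ (p ^ j) = 1 → s ζ = ζ) → ∀ g, s (χ g) = χ g

/-- JOB FLD. `Cyc p χ` means that the values are in the field generated by the roots of unity of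
`p`-power order. Proof. `x = χ g` is a sum of roots of unity, so algebraic over `ℚ`. (Left to right)
Let `K` be the subfield generated by the `p ^ j`-th roots of unity, a number field, and suppose
`x ∉ K`. `minpoly K x` is separable of degree at least `2`, so it has a root `y ≠ x` in `ℂ`, and there
is `φ : K⟮x⟯ →ₐ[K] ℂ` with `φ x = y` (`IntermediateField.adjoin.powerBasis`, or
`IntermediateField.algHomAdjoinIntegralEquiv`). By `exists_aut_emb` (`H977R3.CM`) for the two
embeddings of the number field `K⟮x⟯` there is `s : ℂ ≃+* ℂ` which extends `φ`; it fixes `K`, so by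
`Cyc` it fixes `x`, a contradiction. (Right to left) The values are finitely many elements of the union
over `j` of the increasing chain of the fields generated by the `p ^ j`-th roots of unity
(`IntermediateField.exists_finset_of_mem_adjoin`), so they are in one of them, and all automorphisms
which fix its generators fix it. -/
def S_FLD : Prop := ∀ (G : Type) [Group G] [Fintype G] (χ : G → ℂ), IsIrr χ → ∀ p : ℕ, 0 < p →
  (Cyc p χ ↔ ∀ g, χ g ∈ IntermediateField.adjoin ℚ {ζ : ℂ | ∃ j : ℕ, ζ ^ (p ^ j) = 1})

/-- JOB NCD. The number of Galois conjugates is the degree of the field of values. Proof. Let `E` be the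
subfield generated by the values of `χ`, a number field (finitely many algebraic generators). The map
`φ ↦ (g ↦ φ (χ g))` from `E →ₐ[ℚ] ℂ` to the functions on `G` is injective
(`IntermediateField.algHom_ext_of_eq_adjoin` or induction), and its image is the set of the `s ∘ χ`,
`s : ℂ ≃+* ℂ`: restrict `s` to `E`; conversely every `φ` extends to an automorphism of `ℂ`
(`exists_aut_emb` in `H977R3.CM`, for the inclusion and `φ`). The number of the `φ` is the degree of `E`
(`AlgHom.card`). -/
def S_NCD : Prop := ∀ (G : Type) [Group G] [Fintype G] (χ : G → ℂ), IsIrr χ →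
  nc χ = Module.finrank ℚ (IntermediateField.adjoin ℚ (Set.range χ))

end Pool.Agent.Q17.FT
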